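import Pool.Agent.Lib.MP_49fa77_co.H30.Iface

/-!
# FU: the upper bound, numbers
-/

set_option autoImplicit false

namespace FT58.AS.H45

open Real MeasureTheory Set Metric Filter Relation FT58 FT58.AS

/-- FU. -/
theorem fu_st (hTo : ToS) (hUn : UnS) (hUp : UpS) : FuS := by
  intro n hn
  have hn1 : (1 : ℝ) ≤ n := by exact_mod_cast hn
  have s3 : √3 * √3 = 3 := Real.mul_self_sqrt (by norm_num)
  have s0 : 0 ≤ √3 := Real.sqrt_nonneg 3
  have s1 : (1.732 : ℝ) < √3 := by nlinarith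
  have s2 : √3 < 1.7321 := by nlinarith
  have p1 : (3.1415 : ℝ) < π := Real.pi_gt_d4
  have p2 : π < 3.1416 := Real.pi_lt_d4
  obtain ⟨δ, hδ⟩ : ∃ δ : ℝ, δ = (2 * √3 - π) / (3 * √3 / 2 * n + 4) := ⟨_, rfl⟩
  have hden : 0 < 3 * √3 / 2 * (n : ℝ) + 4 := by positivity
  have hmul : δ * (3 * √3 / 2 * n + 4) = 2 * √3 - π := by
    rw [hδ]; field_simp
  have hδ0 : 0 ≤ δ := by
    rw [hδ]; exact div_nonneg (by linarith) hden.le
  have hc : 2 * √3 - π ≤ 0.3227 := by linarith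
  -- `δ (n - 1)` and `δ` are small
  have hprod : 0 ≤ δ * ((n : ℝ) - 1) := mul_nonneg hδ0 (by linarith)
  have e1 : δ * (3 * √3 / 2 * n + 4)
      = 3 * √3 / 2 * (δ * ((n : ℝ) - 1)) + (3 * √3 / 2 + 4) * δ := by ring
  have h4 : 0 ≤ (√3 - 1.732) * (δ * ((n : ℝ) - 1)) := mul_nonneg (by linarith) hprod
  have h5 : 0 ≤ (√3 - 1.732) * δ := mul_nonneg (by linarith) hδ0
  have hb1 : 2.598 * (δ * ((n : ℝ) - 1)) + 6.598 * δ ≤ 0.3227 := by nlinarith
  have hb2 : 12 * (δ * ((n : ℝ) - 1)) ≤ 1.5 := by linarith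
  have hb3 : δ ≤ 1 / 10 := by linarith
  rw [← hδ]
  have hD9 : 9 / 10 ≤ 1 - δ := by linarith
  have hD1 : 1 - δ ≤ 1 := by linarith
  have hAl : Al (1 - δ) * ((n : ℝ) - 1) ≤ kap (1 - δ) := by
    unfold Al kap
    have hk : (1 - δ) * √3 - π / 2 = δ * (3 * √3 / 4 * n + 2 - √3) := by
      linear_combination (-1 / 2) * hmul
    rw [hk]
    have hd : δ * (3 * √3 / 4 * n + 2 - √3)
        - (3 * √3 / 4 * (1 - (1 - δ)) + 12 * (1 - (1 - δ)) ^ 2) * ((n : ℝ) - 1)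
        = δ * (2 - √3 / 4 - 12 * (δ * ((n : ℝ) - 1))) := by ring
    have : 0 ≤ δ * (2 - √3 / 4 - 12 * (δ * ((n : ℝ) - 1))) :=
      mul_nonneg hδ0 (by linarith)
    linarith
  refine hUp n (1 - δ) hn (by linarith) fun c T hT => ?_
  exact hUn n c (1 - δ) hn (by linarith)
    (fun δ' e S cl p t hLb => hTo n c δ' e S cl p t hLb (1 - δ) hD9 hD1 hAl) T hT

end FT58.AS.H45
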